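import Pool.Agent.N375.AV.Ex
import Pool.Agent.J6H45.WF.ModP

/-!
# The hyperbolic analytic subspace conjecture for products of modular curves: integral invariants around the values of
# compositions of additive functions

The setting is that of the starting theorem `ModularProducts`: `S = Y(1)^n`, `o` a special point of `ℍ^n`, and points `τ` of
`ℍ^n` whose coordinates are isogenous, by arbitrary isogenies, to points with distinct integral invariants `m_1, …, m_k`.
The property `GoodWindow` of an integer `a` says that for all these points with all the `m_s` in the window of radius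
`a ^ θ` around `a` (or around `-a`) every subspace `V` through the point which is rational for the arithmetic structure over
a number field of degree at most `D` contains the tangent space `T` of the Shimura subvariety given by the isogenies
between the pairs `(o_i, τ_i)`, and `T` is rational for both structures and contains the point.

Let `A = f_1 ∘ ⋯ ∘ f_r` be a composition of functions dominated by the largest prime factor: for example additive functions
`f` with `f (p^j) ≤ C p^j` at the prime powers, with different values at different large primes (such as the sum of the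
prime factors), the largest prime factor itself, and Kempner's function. Let `G` be a function with steps bounded below by
a positive constant and growth at most `v ^ d`. For all `n`, `k` there is `C` such that for all `D`, `θ, κ ≥ 0` with
`d (1 - 1 / (2 (D + 2) ^ C) + θ) + κ < 1` there are `b > 0` and `K` such that for all special `o` and numbers `c`, for all
`m ≤ N` but `K N exp (- b (log N) ^ (1 / (r + 1)))`, all the integers `a ≥ 1` with `|a - G(A m)| ≤ (A m) ^ κ` have this
property. The values of `A` are taken with very large multiplicities and `A(m)` is in general much smaller than `m`, so this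
does not follow from the number of the exceptional tuples (`AlmostAllInvariants`).

Proof. `Pool.Agent.J6H45.WF.few` (all windows around `± a` are good for all `a ≤ X` but `O(X ^ s)`, `s < 1`, uniformly in `o`,
`c`) and `Pool.Agent.N375.AV.windows_unif` (helper375).
-/

set_option autoImplicit false

namespace Pool.Agent.Results.MP_1e27bd_ag.AdditiveInvariants

open Pool.Agent.N733.TG (Expanding expanding_pow)
open Pool.Agent.N375.AV (PD comp pd_additive pd_largest pd_kempner)
open Pool.Agent.Results.MP_1e27bd_ag.ModularProducts (Special Compatible)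
open Pool.Agent.J6H45.WF.P (GoodWindow)

/-- For all `n`, `k` there is `C` such that for all `D`, all lists `fs` of functions dominated by the largest prime factor, all
functions `G` with steps bounded below and growth at most `v ^ d`, all `θ, κ ≥ 0` with
`d (1 - 1 / (2 (D + 2) ^ C) + θ) + κ < 1` there are `b > 0` and `K` such that for all special points `o` of `ℍ^n` and compatible
numbers `c_i ≠ 0`, for all `m ≤ N` but `K N exp (- b (log N) ^ (1 / (r + 1)))`, `r` the length of the list, with `v = A(m)`, for
all `a ≥ 1` with `|a - G(v)| ≤ v ^ κ` the windows of radius `a ^ θ` around `a` and `-a` are good. -/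
theorem result :
    (∀ n k : ℕ, ∃ C : ℕ, ∀ (D : ℕ) (fs : List (ℕ → ℕ)), (∀ f ∈ fs, PD f) → ∀ (G : ℕ → ℝ) (d : ℝ), Expanding G d →
      ∀ θ κ : ℝ, 0 ≤ θ → 0 ≤ κ → d * (1 - 1 / (2 * ((D : ℝ) + 2) ^ C) + θ) + κ < 1 → ∃ b K : ℝ, 0 < b ∧
      ∀ o c : Fin n → ℂ, (∀ i, Special (o i)) → (∀ i, c i ≠ 0) → Compatible o c → ∀ N : ℕ, 1 ≤ N →
        ({m : ℕ | 1 ≤ m ∧ m ≤ N ∧ ¬ ∀ a : ℕ, 1 ≤ a →
          |(a : ℝ) - G (comp fs m)| ≤ (comp fs m : ℝ) ^ κ → GoodWindow k D o c θ a}.ncard : ℝ) ≤
            K * N * Real.exp (-(b * Real.log N ^ ((1 : ℝ) / (fs.length + 1))))) ∧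
    ((∀ f : ℕ → ℕ, (∀ a b : ℕ, Nat.Coprime a b → f (a * b) = f a + f b) →
        (∃ C : ℕ, ∀ p j : ℕ, p.Prime → 1 ≤ j → f (p ^ j) ≤ C * p ^ j) →
        (∃ P : ℕ, ∀ p p' : ℕ, p.Prime → p'.Prime → P ≤ p → P ≤ p' → f p = f p' → p = p') → PD f) ∧
      PD (fun n => n.primeFactors.sup id) ∧ PD (fun n => sInf {k : ℕ | n ∣ k.factorial})) ∧
    (∀ α d : ℝ, 0 < α → 1 ≤ d → Expanding (fun v : ℕ => α * (v : ℝ) ^ d) d) := by
  refine ⟨fun n k => ?_, ⟨fun f h1 h2 h3 => pd_additive h1 h2 h3, pd_largest, pd_kempner⟩,
    fun α d hα hd => expanding_pow hα hd⟩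
  obtain ⟨C, hC⟩ := Pool.Agent.J6H45.WF.P.sparse_P n k
  refine ⟨C, fun D fs hfs G d hG θ κ hθ hκ h1 => ?_⟩
  obtain ⟨K, hK⟩ := hC D θ hθ
  obtain ⟨b, K', hb, H⟩ := Pool.Agent.J6H45.WF.add fs hfs hG (Pool.Agent.J6H45.WF.P.exponent_nonneg D C hθ) hκ h1 K
  exact ⟨b, K', hb, fun o c ho hc hcomp N hN => H (GoodWindow k D o c θ) (hK o c ho hc hcomp) N hN⟩

end Pool.Agent.Results.MP_1e27bd_ag.AdditiveInvariants
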