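import Pool.Agent.J6H45.WF.ModP

/-!
# The hyperbolic analytic subspace conjecture for products of modular curves: integral invariants around the values of
# multiplicative functions

The setting is that of the starting theorem `ModularProducts`: `S = Y(1)^n`, `o` a special point of `ℍ^n`, and points `τ` of
`ℍ^n` whose coordinates are isogenous, by arbitrary isogenies, to points with distinct integral invariants `m_1, …, m_k`.
The property `GoodWindow` of an integer `a` says that for all these points with all the `m_s` in the window of radius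
`a ^ θ` around `a` (or around `-a`) every subspace `V` through the point which is rational for the arithmetic structure over
a number field of degree at most `D` contains the tangent space `T` of the Shimura subvariety given by the isogenies
between the pairs `(o_i, τ_i)`, and `T` is rational for both structures and contains the point.

Let `f` be a positive multiplicative function of at most polynomial growth such that `f p ≤ M p` for the large primes `p`,
with different values at different large primes; for example Euler's function or the sum of the divisors. Let `G` be a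
function with steps bounded below by a positive constant and growth at most `v ^ d`, for example `α v ^ d`. For all `n`, `k`
there is `C` such that for all `D`, `θ, κ ≥ 0` with `d (1 - 1 / (2 (D + 2) ^ C) + θ) + κ < 1`, all `U`, all large `N` and all
special `o` and numbers `c`: for all `m ≤ N` but `N / (log N) ^ U` all the integers `a ≥ 1` with `|a - G(f m)| ≤ (f m) ^ κ` have
this property. The values of `f` are a thin set in general and are taken with very large multiplicities, so this does not
follow from the number of the exceptional tuples (`AlmostAllInvariants`).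

Proof. `Pool.Agent.J6H45.WF.few` (all windows around `± a` are good for all `a ≤ X` but `O(X ^ s)`, `s < 1`, uniformly in `o`,
`c`) and `Pool.Agent.N375.MV.keep_windows_unif` (helper733, helper375).
-/

set_option autoImplicit false

namespace Pool.Agent.Results.MP_1e27bd_ag.MultiplicativeInvariants

open Pool.Agent.N733.TG (LM Expanding lm_totient lm_sigma expanding_pow)
open Pool.Agent.Results.MP_1e27bd_ag.ModularProducts (Special Compatible)
open Pool.Agent.J6H45.WF.P (GoodWindow)

/-- For all `n`, `k` there is `C` such that for all `D`, all multiplicative functions `f` as above, all functions `G` with steps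
bounded below and growth at most `v ^ d`, all `θ, κ ≥ 0` with `d (1 - 1 / (2 (D + 2) ^ C) + θ) + κ < 1`, all `U`, all large `N` and
all special points `o` of `ℍ^n` and compatible numbers `c_i ≠ 0`: for all `m ≤ N` but `N / (log N) ^ U`, with `v = f(m)`, for all
`a ≥ 1` with `|a - G(v)| ≤ v ^ κ` the windows of radius `a ^ θ` around `a` and `-a` are good. -/
theorem result :
    (∀ n k : ℕ, ∃ C : ℕ, ∀ (D : ℕ) (f : ℕ → ℕ), LM f → ∀ (G : ℕ → ℝ) (d : ℝ), Expanding G d → ∀ θ κ : ℝ, 0 ≤ θ → 0 ≤ κ →
      d * (1 - 1 / (2 * ((D : ℝ) + 2) ^ C) + θ) + κ < 1 → ∀ U : ℕ, ∃ N₀ : ℕ, ∀ N : ℕ, N₀ ≤ N →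
      ∀ o c : Fin n → ℂ, (∀ i, Special (o i)) → (∀ i, c i ≠ 0) → Compatible o c →
        ({m : ℕ | 1 ≤ m ∧ m ≤ N ∧ ¬ ∀ a : ℕ, 1 ≤ a →
          |(a : ℝ) - G (f m)| ≤ (f m : ℝ) ^ κ → GoodWindow k D o c θ a}.ncard : ℝ) ≤ N / Real.log N ^ U) ∧
    (LM Nat.totient ∧ LM (fun m => ∑ d ∈ m.divisors, d)) ∧
    (∀ α d : ℝ, 0 < α → 1 ≤ d → Expanding (fun v : ℕ => α * (v : ℝ) ^ d) d) := by
  refine ⟨fun n k => ?_, ⟨lm_totient, lm_sigma⟩, fun α d hα hd => expanding_pow hα hd⟩
  obtain ⟨C, hC⟩ := Pool.Agent.J6H45.WF.P.sparse_P n k
  refine ⟨C, fun D f hf G d hG θ κ hθ hκ h1 U => ?_⟩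
  obtain ⟨K, hK⟩ := hC D θ hθ
  obtain ⟨N₀, hN₀⟩ := Pool.Agent.J6H45.WF.mult hf hG (Pool.Agent.J6H45.WF.P.exponent_nonneg D C hθ) hκ h1 K U
  exact ⟨N₀, fun N hN o c ho hc hcomp => hN₀ N hN (GoodWindow k D o c θ) (hK o c ho hc hcomp)⟩

end Pool.Agent.Results.MP_1e27bd_ag.MultiplicativeInvariants
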