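import Pool.Agent.J6H45.WF.ModP

/-!
# The hyperbolic analytic subspace conjecture for products of modular curves: integral invariants around the orbits of
# Euler's function

As in the starting theorem `ModularProducts`, let `S = Y(1)^n`, let `o` be a special point of `ℍ^n`, and let `z` be the
coordinates (in the Harish-Chandra realization) of a point `τ` of `ℍ^n` whose coordinates are isogenous, by arbitrary
isogenies, to points `v_s` with distinct integral invariants `j(v_s) = m_s` (`n` coordinates, `k` isogeny classes). Let `T`
be the tangent space of the Shimura subvariety through `[o]` and `[z]` given by all the isogenies between the pairs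
`(o_i, τ_i)`, and by `x_i = o_i` if `τ_i = o_i`. We consider the property that EVERY subspace `V ∋ z` which is rational for
the arithmetic structure over some number field of degree at most `D` contains `T`: so the answer to Q1 for these `V` is
yes with `V' = T`, and `T` is as in Q2.

Let `φ_l` be the `l`-th iterate of Euler's function, `φ_0(m) = m`, and let `f` be a positive multiplicative function of at
most polynomial growth such that `f p ≤ M p` for the large primes `p`, with different values at different large primes;
for example the identity, Euler's function or the sum of the divisors. Let `G` be a function with steps bounded below by a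
positive constant and growth at most `v ^ d`. For all `n`, `k` there is `C` such that for all `D`, `θ ≥ 0`, `κ ≥ 0` with
`d (1 - 1 / (2 (D + 2) ^ C) + θ) + κ < 1`, all `L` and `ε > 0`, all large `N` and all special `o` and numbers `c` (how large `N`
has to be does not depend on them): for all `m ≤ N` but `ε N`, for all `l ≤ L`, with `v = f(φ_l(m))`, for ALL integers
`a ≥ 1` with `|a - G(v)| ≤ v ^ κ`, ALL distinct integers `m_1, …, m_k` in the window of radius `a ^ θ` around `a`, or around
`-a`, have this property, for all the points `v_s`, `τ`.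

The iterates of Euler's function are not multiplicative, their values form a thin set and are taken with very large
multiplicities, so this does not follow from the number of the exceptional tuples (`AlmostAllInvariants`). There are no
exceptional integers in these windows, whereas in the windows of `ModularProducts` there may be `n + 2`.

Proof. (1) From `ModularProducts`: for all `a ≤ X` but `O(X ^ (1 - 1 / (2 (D + 2) ^ C) + θ))` there is no exceptional tuple in
the window of radius `a ^ θ` around `± a` (`Pool.Agent.J6H45.WF.few`, uniformly in `o`, `c`). (2) The orbits of Euler's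
function avoid sets with a power saving (`Pool.Agent.N760.IT.densW`, helper760).
-/

set_option autoImplicit false

namespace Pool.Agent.Results.MP_1e27bd_ag.OrbitInvariants

open Pool.Agent.N733.TG (LM Expanding lm_totient lm_sigma expanding_pow)
open Pool.Agent.N760.IT (orb lm_id)
open Pool.Agent.Results.MP_1e27bd_ag.ModularProducts (Special Compatible)
open Pool.Agent.J6H45.WF.P (GoodWindow)

/-- For all `n`, `k` there is `C` such that for all `D`, all multiplicative functions `f` as above, all functions `G` with steps
bounded below and growth at most `v ^ d`, all `θ, κ ≥ 0` with `d (1 - 1 / (2 (D + 2) ^ C) + θ) + κ < 1`, all `L` and `ε > 0`, all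
large `N` and all special points `o` of `ℍ^n` and compatible numbers `c_i ≠ 0`: for all `m ≤ N` but `ε N`, for all `l ≤ L`,
with `v = f(φ_l(m))` (`orb f l m`), for all `a ≥ 1` with `|a - G(v)| ≤ v ^ κ` the windows of radius `a ^ θ` around `a` and `-a`
are good. The identity, Euler's function and the sum of the divisors are examples for `f`, and `α v ^ d`, `α > 0`, `d ≥ 1`,
are examples for `G`. -/
theorem result :
    (∀ n k : ℕ, ∃ C : ℕ, ∀ (D : ℕ) (f : ℕ → ℕ), LM f → ∀ (G : ℕ → ℝ) (d : ℝ), Expanding G d → ∀ θ κ : ℝ, 0 ≤ θ → 0 ≤ κ →
      d * (1 - 1 / (2 * ((D : ℝ) + 2) ^ C) + θ) + κ < 1 → ∀ (L : ℕ) (ε : ℝ), 0 < ε → ∃ N₀ : ℕ, ∀ N : ℕ, N₀ ≤ N →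
      ∀ o c : Fin n → ℂ, (∀ i, Special (o i)) → (∀ i, c i ≠ 0) → Compatible o c →
        ({m : ℕ | 1 ≤ m ∧ m ≤ N ∧ ¬ ∀ l ≤ L, ∀ a : ℕ, 1 ≤ a →
          |(a : ℝ) - G (orb f l m)| ≤ (orb f l m : ℝ) ^ κ → GoodWindow k D o c θ a}.ncard : ℝ) ≤ ε * N) ∧
    (LM (fun m => m) ∧ LM Nat.totient ∧ LM (fun m => ∑ d ∈ m.divisors, d)) ∧
    (∀ α d : ℝ, 0 < α → 1 ≤ d → Expanding (fun v : ℕ => α * (v : ℝ) ^ d) d) := by
  refine ⟨fun n k => ?_, ⟨lm_id, lm_totient, lm_sigma⟩, fun α d hα hd => expanding_pow hα hd⟩
  obtain ⟨C, hC⟩ := Pool.Agent.J6H45.WF.P.sparse_P n k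
  refine ⟨C, fun D f hf G d hG θ κ hθ hκ h1 L ε hε => ?_⟩
  obtain ⟨K, hK⟩ := hC D θ hθ
  obtain ⟨N₀, hN₀⟩ := Pool.Agent.J6H45.WF.orbit hf hG (Pool.Agent.J6H45.WF.P.exponent_nonneg D C hθ) hκ h1 K L ε hε
  exact ⟨N₀, fun N hN o c ho hc hcomp => hN₀ N hN (GoodWindow k D o c θ) (hK o c ho hc hcomp)⟩

end Pool.Agent.Results.MP_1e27bd_ag.OrbitInvariants
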