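import Pool.Agent.J6H45.WF.ModP

/-!
# The hyperbolic analytic subspace conjecture for products of modular curves: integral invariants near the terms of
# sequences with a real parameter

The setting is that of the starting theorem `ModularProducts`: `S = Y(1)^n`, `o` a special point of `ℍ^n`, and points `τ` of
`ℍ^n` whose coordinates are isogenous, by arbitrary isogenies, to points with distinct integral invariants `m_1, …, m_k`.
The property `GoodWindow` of an integer `a` says that for all these points with all the `m_s` in the window of radius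
`a ^ η` around `a` (or around `-a`) every subspace `V` through the point which is rational for the arithmetic structure over
a number field of degree at most `D` contains the tangent space `T` of the Shimura subvariety given by the isogenies
between the pairs `(o_i, τ_i)`, and `T` is rational for both structures and contains the point.

Let `f_l`, `l = 0, 1, 2, …`, be positive functions on `(x₀, ∞)`, `x₀ ≥ 0`, such that `f_l(x) / x` is nondecreasing and such
that the sequence `f_l(x)` has exponent of convergence at most `σ` for each `x > x₀`: for instance `f_l(x) = v_l x`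
(dilatations; `σ` the exponent of convergence of `v_l > 0`), `f_l(x) = x ^ (v_l)` for exponents `v_l ≥ 1` (`σ = 0`), or the
orbits `f_l(x) = g (g (⋯ g (x)))` of any map `g` with `g(x) > x` and `g(x) / x` nondecreasing (`σ = 0`). There is `C`, depending
only on `n`, `k`, such that for all `D`, `η ≥ 0`, `θ < 1` and all `o`, `c`, for all `x > x₀` outside a set of Hausdorff dimension
at most `(1 - 1 / (2 (D + 2) ^ C) + η + σ) / (1 - θ)` and each `c'`, for all but finitely many `l` ALL the integers `a ≥ 1` with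
`|a - f_l(x)| ≤ c' f_l(x) ^ θ` have this property. For `σ = 0` (lacunary sequences, powers, orbits) and small `η`, `θ` the
dimension is smaller than `1`.

Proof. `Pool.Agent.J6H45.WF.few` (all windows around `± a` are good for all `a ≤ X` but `O(X ^ s)`, `s < 1`) and
`Pool.Agent.R482.ST.windows` (helper482).
-/

set_option autoImplicit false

namespace Pool.Agent.Results.MP_1e27bd_ag.StarshapedInvariants

open Pool.Agent.Results.MP_1e27bd_ag.ModularProducts (Special Compatible)
open Pool.Agent.J6H45.WF.P (GoodWindow)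

/-- the functions `f l` are positive on `(a, ∞)`, `a ≥ 0`, and `f l x / x` is nondecreasing there -/
def Starshaped (a : ℝ) (f : ℕ → ℝ → ℝ) : Prop :=
  0 ≤ a ∧ ∀ l : ℕ, ∀ x y : ℝ, a < x → x ≤ y → 0 < f l x ∧ f l x / x ≤ f l y / y

/-- for each `x > a` the exponent of convergence of the sequence `f l x` is at most `σ` -/
def ExpLe (a : ℝ) (f : ℕ → ℝ → ℝ) (σ : ℝ) : Prop :=
  ∀ x : ℝ, a < x → ∀ t : ℝ, σ < t → Summable (fun l : ℕ => (f l x) ^ (-t))

/-- For all `n`, `k` there is `C` such that for all `D`, all special points `o` of `ℍ^n` and compatible numbers `c_i ≠ 0`, all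
starshaped functions `f_l` on `(x₀, ∞)` of exponent `σ`, all `η ≥ 0` and `θ < 1` there is a set `E` of Hausdorff dimension at most
`(1 - 1 / (2 (D + 2) ^ C) + η + σ) / (1 - θ)` such that for all `x > x₀` outside `E` and all `c'`, for all large `l`, for all
`a ≥ 1` with `|a - f_l(x)| ≤ c' f_l(x) ^ θ` the windows of radius `a ^ η` around `a` and `-a` are good. The functions `v_l x`,
`v_l > 0`, are starshaped on `(0, ∞)`, of exponent `σ` if `v` has exponent of convergence at most `σ`; the functions `x ^ (v_l)`,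
`v_l ≥ 1`, are starshaped on `(1, ∞)`, of exponent `0` if the sums of `exp (-t v_l)` converge for `t > 0`; and the iterates of
a map `g` with `g(x) > x` for `x > x₀` and `g(x) / x` nondecreasing are starshaped on `(x₀, ∞)`, of exponent `0`. -/
theorem result :
    (∀ n k : ℕ, ∃ C : ℕ, ∀ (D : ℕ) (o c : Fin n → ℂ), (∀ i, Special (o i)) → (∀ i, c i ≠ 0) → Compatible o c →
      ∀ (f : ℕ → ℝ → ℝ) (x₀ σ η θ : ℝ), Starshaped x₀ f → 0 ≤ σ → ExpLe x₀ f σ → 0 ≤ η → θ < 1 →
      ∃ E : Set ℝ, dimH E ≤ ENNReal.ofReal ((1 - 1 / (2 * ((D : ℝ) + 2) ^ C) + η + σ) / (1 - θ)) ∧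
        ∀ x : ℝ, x₀ < x → x ∉ E → ∀ c' : ℝ, ∃ l₀ : ℕ, ∀ l : ℕ, l₀ ≤ l → ∀ a : ℕ, 1 ≤ a →
          |(a : ℝ) - f l x| ≤ c' * (f l x) ^ θ → GoodWindow k D o c η a) ∧
    (∀ (v : ℕ → ℝ) (σ : ℝ), (∀ l, 0 < v l) → (∀ t : ℝ, σ < t → Summable (fun l : ℕ => (v l) ^ (-t))) →
      Starshaped 0 (fun l x => v l * x) ∧ ExpLe 0 (fun l x => v l * x) σ) ∧
    (∀ v : ℕ → ℝ, (∀ l, 1 ≤ v l) → (∀ t : ℝ, 0 < t → Summable fun l : ℕ => Real.exp (-(t * v l))) →
      Starshaped 1 (fun l x => x ^ (v l)) ∧ ExpLe 1 (fun l x => x ^ (v l)) 0) ∧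
    (∀ (x₀ : ℝ) (g : ℝ → ℝ), 0 ≤ x₀ → (∀ x y : ℝ, x₀ < x → x ≤ y → g x / x ≤ g y / y) → (∀ x : ℝ, x₀ < x → x < g x) →
      Starshaped x₀ (fun l x => g^[l] x) ∧ ExpLe x₀ (fun l x => g^[l] x) 0) := by
  refine ⟨fun n k => ?_, Pool.Agent.R482.ST.ex_mul, Pool.Agent.R482.ST.ex_pow, Pool.Agent.R482.ST.ex_orbit⟩
  obtain ⟨C, hC⟩ := Pool.Agent.J6H45.WF.P.sparse_P n k
  refine ⟨C, fun D o c ho hc hcomp f x₀ σ η θ hf hσ hv hη hθ => ?_⟩
  obtain ⟨K, hK⟩ := hC D η hη
  exact Pool.Agent.J6H45.WF.star (Pool.Agent.J6H45.WF.P.exponent_nonneg D C hη) (hK o c ho hc hcomp) hf hσ hv hθ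

end Pool.Agent.Results.MP_1e27bd_ag.StarshapedInvariants
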